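import Pool.Agent.Lib.MP_6e5bed_ag_CV.FinalA
import Pool.Agent.Lib.MP_6e5bed_ag_SP.MMain
import Pool.Agent.Lib.MP_6e5bed_ag_WW.WTr

set_option autoImplicit false
set_option linter.unusedVariables false

/-!
# MP_6e5bed_ag, THEOREM V: from the classes to the morphisms of noncommutative motives
-/

noncomputable section

namespace Pool.Agent.MP_6e5bed_ag_VT

open CategoryTheory MonoidalCategory Pool.Agent.MP_6e5bed_ag Pool.Agent.MP_6e5bed_ag_NC
  Pool.Agent.MP_6e5bed_ag_WW
open Pool.Agent.MP_6e5bed_ag_SP (DG Rep RA repOf SmPr NCMot smPr_of)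

universe u

variable {k : Type u} [Field k]

/-- The base field and the dg algebras which represent a member of the family. -/
def GoodV {J : Type (u + 1)} {S : J → Type u} [∀ a, Ring (S a)] [∀ a, Algebra k (S a)]
    (Y : ∀ a, DG k (S a)) (D : DGA k) : Prop :=
  D = base k ∨ ∃ a, Nonempty (Rep (Y a) D)

variable {C : Type (u + 1)} [Category.{u + 1} C] [MonoidalCategory C]
  [SymmetricCategory C] [Preadditive C] [MonoidalPreadditive C] [Linear ℚ C] (H : NCMot k C)
  {J : Type (u + 1)} {S : J → Type u} [∀ a, Ring (S a)] [∀ a, Algebra k (S a)]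
  {Y : ∀ a, DG k (S a)} (sY : ∀ a, SmPr (Y a))

include sY in
theorem GoodV.smooth {D : DGA k} (h : GoodV Y D) : Smooth D := by
  rcases h with rfl | ⟨a, ⟨r⟩⟩
  · exact (SP.base k).smooth
  · exact (sY a).smooth r

/-- The classes in the span give finite sums of compositions through the motives of the family
and through the unit. -/
theorem exists_sum_ghom {T : Type u} [Ring T] [Algebra k T] {X : DG k T} (sX : SmPr X) {A : DGA k}
    (s : Rep X A) (z : K0Q A A) (hz : z ∈ JS (GoodV Y) A) :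
    ∃ (I I' : Type) (_ : Fintype I) (_ : Fintype I') (a : I → J)
      (f : ∀ i, H.U X sX ⟶ H.U (Y (a i)) (sY (a i)))
      (g : ∀ i, H.U (Y (a i)) (sY (a i)) ⟶ H.U X sX) (f' : I' → (H.U X sX ⟶ 𝟙_ C))
      (g' : I' → (𝟙_ C ⟶ H.U X sX)),
      ∑ i, f i ≫ g i + ∑ i, f' i ≫ g' i = ghom H sX sX s s z := by
  unfold JS at hz
  induction hz using Submodule.span_induction with
  | mem x hx =>
    obtain ⟨D, hp, f, g, hG, rfl⟩ := hx
    rcases hG with rfl | ⟨a, ⟨r⟩⟩
    · let r : Rep (DG.of (SP.base k).alg) (base k) := repOf (SP.base k).alg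
      let I := H.unit (smPr_of (SP.base k)) NCMot.MMon_bij
      refine ⟨Empty, Unit, inferInstance, inferInstance, fun i => i.elim, fun i => i.elim,
        fun i => i.elim, fun _ => ghom H sX (smPr_of (SP.base k)) s r f ≫ I.inv,
        fun _ => I.hom ≫ ghom H (smPr_of (SP.base k)) sX r s g, ?_⟩
      rw [ghom_comp H sX (smPr_of (SP.base k)) sX s r s hp f g, Fintype.sum_empty, zero_add,
        Fintype.sum_unique, Category.assoc]
      exact congrArg _ (I.inv_hom_id_assoc _)
    · refine ⟨Unit, Empty, inferInstance, inferInstance, fun _ => a,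
        fun _ => ghom H sX (sY a) s r f, fun _ => ghom H (sY a) sX r s g, fun i => i.elim,
        fun i => i.elim, ?_⟩
      rw [Fintype.sum_unique, Fintype.sum_empty, add_zero]
      exact (ghom_comp H sX (sY a) sX s r s hp f g).symm
  | zero =>
    refine ⟨Empty, Empty, inferInstance, inferInstance, fun i => i.elim, fun i => i.elim,
      fun i => i.elim, fun i => i.elim, fun i => i.elim, ?_⟩
    rw [Fintype.sum_empty, Fintype.sum_empty, add_zero, map_zero]
  | add x y _ _ ihx ihy =>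
    obtain ⟨I₁, I₁', _, _, a₁, f₁, g₁, f₁', g₁', h₁⟩ := ihx
    obtain ⟨I₂, I₂', _, _, a₂, f₂, g₂, f₂', g₂', h₂⟩ := ihy
    refine ⟨I₁ ⊕ I₂, I₁' ⊕ I₂', inferInstance, inferInstance, Sum.elim a₁ a₂, Sum.rec f₁ f₂,
      Sum.rec g₁ g₂, Sum.elim f₁' f₂', Sum.elim g₁' g₂', ?_⟩
    rw [map_add, ← h₁, ← h₂, Fintype.sum_sum_type, Fintype.sum_sum_type]
    exact add_add_add_comm _ _ _ _
  | smul c x _ ih =>
    obtain ⟨I, I', _, _, a, f, g, f', g', h⟩ := ih
    refine ⟨I, I', inferInstance, inferInstance, a, fun i => c • f i, g, fun i => c • f' i, g',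
      ?_⟩
    simp only [Linear.smul_comp]
    rw [← Finset.smul_sum, ← Finset.smul_sum, ← smul_add, h, map_smul]

/-- If the identity is in the span of the classes which factor through good dg algebras, then the
motive is a direct summand of a finite direct sum of unit objects and motives of the family. -/
theorem exists_sum {T : Type u} [Ring T] [Algebra k T] {X : DG k T} (sX : SmPr X) {A : DGA k}
    (s : Rep X A) (hs : Smooth A) (h : K0Q.one hs ∈ JS (GoodV Y) A) :
    ∃ (N N' : ℕ) (a : Fin N → J) (f : ∀ i, H.U X sX ⟶ H.U (Y (a i)) (sY (a i)))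
      (g : ∀ i, H.U (Y (a i)) (sY (a i)) ⟶ H.U X sX) (f' : Fin N' → (H.U X sX ⟶ 𝟙_ C))
      (g' : Fin N' → (𝟙_ C ⟶ H.U X sX)),
      ∑ i, f i ≫ g i + ∑ i, f' i ≫ g' i = 𝟙 (H.U X sX) := by
  have hp : Proper A := sX.proper s
  obtain ⟨I, I', _, _, a, f, g, f', g', h1⟩ := exists_sum_ghom H sY sX s _ h
  let e := Fintype.equivFin I
  let e' := Fintype.equivFin I'
  refine ⟨_, _, fun i => a (e.symm i), fun i => f (e.symm i), fun i => g (e.symm i),
    fun i => f' (e'.symm i), fun i => g' (e'.symm i), ?_⟩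
  rw [Equiv.sum_comp e.symm (fun i => f i ≫ g i), Equiv.sum_comp e'.symm (fun i => f' i ≫ g' i),
    h1, ghom_one H sX s hs hp]

/-- Kimura-finiteness. -/
theorem kf_of_mem {T : Type u} [Ring T] [Algebra k T] {X : DG k T} (sX : SmPr X) {A : DGA k}
    (s : Rep X A) (hs : Smooth A) (h : K0Q.one hs ∈ JS (GoodV Y) A)
    (hk : ∀ a, KimuraFinite (H.U (Y a) (sY a))) : KimuraFinite (H.U X sX) := by
  have hp : Proper A := sX.proper s
  obtain ⟨N, W, hW, f, g, hfg⟩ := JS.exists_sum (fun D (hD : GoodV Y D) => hD.smooth sY)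
    (⟨A, hs, hp⟩ : SP k) h
  refine (H.kimuraFinite_iff sX ⟨A, hs, hp⟩ s).2 (kf_of_sum _ W f g hfg fun i => ?_)
  rcases hW i with h1 | ⟨a, ⟨r⟩⟩
  · exact kf_base _ h1
  · exact (H.kimuraFinite_iff (sY a) (W i) r).1 (hk a)

end Pool.Agent.MP_6e5bed_ag_VT
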