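import Pool.Agent.Lib.MP_6e5bed_ag_GG.TFin
import Pool.Agent.Lib.MP_6e5bed_ag_GP.FinLR
import Pool.Agent.Lib.MP_6e5bed_ag_GP.VHp
import Pool.Agent.Lib.MP_6e5bed_ag_GV.VDef
import Pool.Agent.Lib.MP_6e5bed_ag_VT.VSum

set_option autoImplicit false
set_option linter.unusedVariables false
set_option linter.unusedSectionVars false

/-!
# MP_6e5bed_ag, THEOREM V+: the final theorem
-/

noncomputable section

namespace Pool.Agent.MP_6e5bed_ag_VT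

open CategoryTheory MonoidalCategory MvPolynomial Pool.Agent.MP_6e5bed_ag
  Pool.Agent.MP_6e5bed_ag_Pn Pool.Agent.MP_6e5bed_ag_NC Pool.Agent.MP_6e5bed_ag_GG
  Pool.Agent.MP_6e5bed_ag_GP Pool.Agent.MP_6e5bed_ag_PS
open Pool.Agent.MP_6e5bed_ag_SP (DG Rep RA repOf SmPr NCMot)

universe u

variable {ν : ℕ} {k Γ : Type u} [Field k] [Ring Γ] [Algebra k Γ]
  [Algebra (MvPolynomial (Fin (ν + 1)) k) Γ] [IsScalarTower k (MvPolynomial (Fin (ν + 1)) k) Γ]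
  {𝒢 : ℕ → Submodule k Γ}

/-- The identity of the motive of a coherent algebra is in the span of the classes which factor
through the base field and the varieties of the family. -/
theorem one_mem (h : IsGr ν 𝒢) {T : Type u} [Ring T] [Algebra k T] {X : DG k T}
    (hX : IsRGam ν 𝒢 X) (sX : SmPr X) {J : Type (u + 1)} {M : J → Type u} [∀ a, Field (M a)]
    [∀ a, Algebra k (M a)] {S : J → Type u} [∀ a, Ring (S a)] [∀ a, Algebra k (S a)]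
    {Y : ∀ a, DG k (S a)} (sY : ∀ a, SmPr (Y a))
    (hY : ∀ a, ∃ Z : XT k, Z.Gen ∧ Nonempty (Rep (Y a) (TT Z.ca)) ∧ Nonempty (M a ≃ₐ[k] Z.M))
    (hc : CenFam ν k Γ M) :
    ∃ (A : DGA k) (_ : Rep X A) (hs : Smooth A), K0Q.one hs ∈ JS (GoodV Y) A := by
  obtain ⟨B, _, _, r, q, e, hq, he⟩ := hX
  obtain ⟨σ, hσ⟩ := exists_dec (ν := ν) (nodup_LL (Fin (ν + 1))) mem_LL
  obtain ⟨E, hE⟩ := exists_cechD h hq σ hσ mem_LL
  obtain ⟨s⟩ := cechD_rep he hE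
  refine ⟨_, s, sX.smooth s, one_mem_pv (Or.inl rfl) (finL _) (finR _) _ (hpv_caOf h hq σ (fun a => ?_)
    hc)⟩
  obtain ⟨Z, hG, ⟨r⟩, hM⟩ := hY a
  exact ⟨Z, hG, SPJ.of_good ((sY a).smooth r) ((sY a).proper r) (Or.inr ⟨a, ⟨r⟩⟩), hM⟩

variable {C : Type (u + 1)} [Category.{u + 1} C] [MonoidalCategory C]
  [SymmetricCategory C] [Preadditive C] [MonoidalPreadditive C] [Linear ℚ C] (H : NCMot k C)

/-- THEOREM V+, for a family of dg algebras which are represented by X-data. -/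
theorem main_v (h : IsGr ν 𝒢) {T : Type u} [Ring T] [Algebra k T] {X : DG k T}
    (hX : IsRGam ν 𝒢 X) (sX : SmPr X) {J : Type (u + 1)} {M : J → Type u} [∀ a, Field (M a)]
    [∀ a, Algebra k (M a)] {S : J → Type u} [∀ a, Ring (S a)] [∀ a, Algebra k (S a)]
    {Y : ∀ a, DG k (S a)} (sY : ∀ a, SmPr (Y a))
    (hY : ∀ a, ∃ Z : XT k, Z.Gen ∧ Nonempty (Rep (Y a) (TT Z.ca)) ∧ Nonempty (M a ≃ₐ[k] Z.M))
    (hc : CenFam ν k Γ M) :
    (∃ (N N' : ℕ) (a : Fin N → J) (f : ∀ i, H.U X sX ⟶ H.U (Y (a i)) (sY (a i)))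
      (g : ∀ i, H.U (Y (a i)) (sY (a i)) ⟶ H.U X sX) (f' : Fin N' → (H.U X sX ⟶ 𝟙_ C))
      (g' : Fin N' → (𝟙_ C ⟶ H.U X sX)),
      ∑ i, f i ≫ g i + ∑ i, f' i ≫ g' i = 𝟙 (H.U X sX)) ∧
    ((∀ a, KimuraFinite (H.U (Y a) (sY a))) → KimuraFinite (H.U X sX)) := by
  obtain ⟨A, s, hs, h1⟩ := one_mem h hX sX sY hY hc
  exact ⟨exists_sum H sY sX s hs h1, kf_of_mem H sY sX s hs h1⟩

end Pool.Agent.MP_6e5bed_ag_VT
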